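import Pool.Agent.Helper69.ISO.Sheet
import Pool.Agent.Helper3.PN.UNI
import Pool.Agent.Helper79.PN.Fin

/-!
Project ISO, rows O5 and O6.
-/

set_option autoImplicit false

open scoped Classical

namespace Pool.Agent.Helper46.ISO

open Pool.Agent.Helper79.PN Pool.Agent.Helper69.ISO

theorem below_aux {E : Type} [NormedAddCommGroup E] [InnerProductSpace ℂ E] [CompleteSpace E]
    (T : E →L[ℂ] E) (c : ℝ) (hT : IsSelfAdjoint T)
    (hb : ∀ x, (∀ y, T y = 0 → inner ℂ y x = (0 : ℂ)) → c * ‖x‖ ≤ ‖T x‖)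
    (t : ℝ) (htc : |t| < c) (x : E) :
    min |t| (c - |t|) * ‖x‖ ≤ ‖T x - (t : ℂ) • x‖ := by
  have hsym : ∀ u v : E, (inner ℂ (T u) v : ℂ) = inner ℂ u (T v) := by
    intro u v
    have hadj : ContinuousLinearMap.adjoint T = T := ContinuousLinearMap.isSelfAdjoint_iff'.1 hT
    conv_lhs => rw [← hadj]
    exact ContinuousLinearMap.adjoint_inner_left T v u
  set K : Submodule ℂ E := LinearMap.ker (T : E →ₗ[ℂ] E) with hK
  have hKc : IsClosed (K : Set E) := by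
    have : (K : Set E) = T ⁻¹' {0} := by
      ext z
      simp [hK]
    rw [this]
    exact isClosed_singleton.preimage T.continuous
  have : CompleteSpace K := hKc.completeSpace_coe
  obtain ⟨k, hk, y, hy, hxy⟩ := K.exists_add_mem_mem_orthogonal x
  have hTk : T k = 0 := by
    have := hk
    rw [hK, LinearMap.mem_ker] at this
    exact this
  have hyK : ∀ z, T z = 0 → inner ℂ z y = (0 : ℂ) := by
    intro z hz
    refine (Submodule.mem_orthogonal K y).1 hy z ?_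
    rw [hK, LinearMap.mem_ker]
    exact hz
  have hy1 := hb y hyK
  have h1 : T x - (t : ℂ) • x = (-(t : ℂ) • k) + (T y - (t : ℂ) • y) := by
    rw [hxy, map_add, hTk, smul_add, neg_smul]
    abel
  have h2 : (inner ℂ (-(t : ℂ) • k) (T y - (t : ℂ) • y) : ℂ) = 0 := by
    rw [inner_smul_left, inner_sub_right, inner_smul_right, hyK k hTk, ← hsym, hTk]
    simp
  have h3 : (inner ℂ k y : ℂ) = 0 := hyK k hTk
  have h4 : ‖T x - (t : ℂ) • x‖ ^ 2 = (|t| * ‖k‖) ^ 2 + ‖T y - (t : ℂ) • y‖ ^ 2 := by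
    rw [h1]
    have := norm_add_sq_eq_norm_sq_add_norm_sq_of_inner_eq_zero _ _ h2
    rw [sq, this, norm_smul, norm_neg, Complex.norm_real, Real.norm_eq_abs]
    ring
  have h5 : ‖x‖ ^ 2 = ‖k‖ ^ 2 + ‖y‖ ^ 2 := by
    rw [hxy]
    have := norm_add_sq_eq_norm_sq_add_norm_sq_of_inner_eq_zero _ _ h3
    rw [sq, this]
    ring
  have h6 : (c - |t|) * ‖y‖ ≤ ‖T y - (t : ℂ) • y‖ := by
    have := norm_sub_norm_le (T y) ((t : ℂ) • y)
    rw [norm_smul, Complex.norm_real, Real.norm_eq_abs] at this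
    linarith
  have hm0 : 0 ≤ min |t| (c - |t|) := le_min (abs_nonneg _) (by linarith)
  refine abs_le_of_sq_le_sq' ?_ (norm_nonneg _) |>.2
  rw [h4, mul_pow, h5]
  have h7 : (min |t| (c - |t|)) ^ 2 ≤ |t| ^ 2 :=
    pow_le_pow_left₀ hm0 (min_le_left _ _) 2
  have h8 : (min |t| (c - |t|)) ^ 2 ≤ (c - |t|) ^ 2 :=
    pow_le_pow_left₀ hm0 (min_le_right _ _) 2
  have h9 : ((c - |t|) * ‖y‖) ^ 2 ≤ ‖T y - (t : ℂ) • y‖ ^ 2 :=
    pow_le_pow_left₀ (mul_nonneg (by linarith) (norm_nonneg _)) h6 2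
  nlinarith [mul_le_mul_of_nonneg_right h7 (sq_nonneg ‖k‖),
    mul_le_mul_of_nonneg_right h8 (sq_nonneg ‖y‖)]

theorem O5 : ST_O5 := by
  intro E _ _ _ T c hT hc hb t ht0 htc hs
  have hsa : IsSelfAdjoint (T - (t : ℂ) • (1 : E →L[ℂ] E)) := by
    refine hT.sub ?_
    have h1 : IsSelfAdjoint (t : ℂ) := by
      rw [IsSelfAdjoint, Complex.star_def, Complex.conj_ofReal]
    exact h1.smul (IsSelfAdjoint.one _)
  have hu := Pool.Agent.Helper3.PN.st_UNI E (T - (t : ℂ) • (1 : E →L[ℂ] E)) (min |t| (c - |t|)) hsa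
    (lt_min (abs_pos.2 ht0) (by linarith)) (by
      intro x
      have := below_aux T c hT hb t htc x
      simpa using this)
  rw [spectrum.mem_iff] at hs
  apply hs
  have h2 : algebraMap ℂ (E →L[ℂ] E) (t : ℂ) - T = -(T - (t : ℂ) • (1 : E →L[ℂ] E)) := by
    rw [Algebra.algebraMap_eq_smul_one]
    abel
  rw [h2]
  exact hu.neg

theorem O6 (hO4 : ST_O4) (hO5 : ST_O5) : ST_O6 := by
  intro θ H hθ hH
  obtain ⟨c, hc, hb⟩ := hO4 θ H hθ hH
  obtain ⟨H', hL, hsa, huniq⟩ := fin_OPX θ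
  have hHsa : IsSelfAdjoint H := by
    rw [huniq H hH]
    exact hsa
  refine ⟨c, hc, ?_⟩
  intro E hE1 hE2 hs
  have hT : IsSelfAdjoint (H + (3 : ℂ) • (1 : Hil θ →L[ℂ] Hil θ)) := by
    refine hHsa.add ?_
    have h1 : IsSelfAdjoint (3 : ℂ) := by
      rw [IsSelfAdjoint, Complex.star_def]
      exact Complex.conj_ofNat 3
    exact h1.smul (IsSelfAdjoint.one _)
  have hne : (E + 3 : ℝ) ≠ 0 := by linarith
  have hlt : |E + 3| < c := by
    rw [abs_of_pos (by linarith)]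
    linarith
  refine hO5 (Hil θ) (H + (3 : ℂ) • (1 : Hil θ →L[ℂ] Hil θ)) c hT hc ?_ (E + 3) hne hlt ?_
  · intro x hx
    have := hb x (by
      intro y hy
      refine hx y ?_
      have h3 : (H + (3 : ℂ) • (1 : Hil θ →L[ℂ] Hil θ)) y = H y + (3 : ℂ) • y := by simp
      rw [h3, hy, ← add_smul]
      norm_num)
    have h3 : (H + (3 : ℂ) • (1 : Hil θ →L[ℂ] Hil θ)) x = H x + (3 : ℂ) • x := by simp
    rw [h3]
    exact this
  · rw [spectrum.mem_iff] at hs ⊢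
    intro hu
    apply hs
    have h4 : algebraMap ℂ (Hil θ →L[ℂ] Hil θ) (E : ℂ) - H =
        algebraMap ℂ (Hil θ →L[ℂ] Hil θ) ((E + 3 : ℝ) : ℂ) -
          (H + (3 : ℂ) • (1 : Hil θ →L[ℂ] Hil θ)) := by
      rw [Algebra.algebraMap_eq_smul_one, Algebra.algebraMap_eq_smul_one, Complex.ofReal_add,
        add_smul]
      have : ((3 : ℝ) : ℂ) = (3 : ℂ) := by norm_num
      rw [this]
      abel
    rw [h4]
    exact hu

end Pool.Agent.Helper46.ISO
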